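import Pool.Agent.Y806.DF.D

/-!
# The bound for the dimension in the polynomial Freiman-Ruzsa conjecture over the integers
-/

set_option autoImplicit false

namespace Pool.Agent.Q288.FR

open Finset Pool.Agent.Y806.DF
open scoped Pointwise

/-- The integer points of the set `B`. -/
def pts {d : ℕ} (B : Set (Fin d → ℝ)) : Set (Fin d → ℤ) := {x | (fun i => (x i : ℝ)) ∈ B}

/-- The linear form with the coefficients `v`. -/
def lin {d : ℕ} (v x : Fin d → ℤ) : ℤ := ∑ i, v i * x i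

/-- `B` is a centrally symmetric convex body. -/
def SymBody {d : ℕ} (B : Set (Fin d → ℝ)) : Prop :=
  Convex ℝ B ∧ IsCompact B ∧ (interior B).Nonempty ∧ ∀ x ∈ B, -x ∈ B

/-- `A` is covered by the translates by `T` of the image of the integer points of `B` under the
linear form `v`. -/
def Covered {d : ℕ} (B : Set (Fin d → ℝ)) (v : Fin d → ℤ) (T A : Finset ℤ) : Prop :=
  ∀ a ∈ A, ∃ t ∈ T, ∃ x ∈ pts B, a = t + lin v x

/-- Q1 (the text of the frozen statement). -/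
def PFRInt : Prop :=
  ∃ C : ℝ, 0 < C ∧ ∀ (K : ℝ) (A : Finset ℤ), A.Nonempty →
    (((A + A).card : ℝ) ≤ K * (A.card : ℝ)) →
    ∃ (d : ℕ) (B : Set (Fin d → ℝ)) (v : Fin d → ℤ) (T : Finset ℤ),
      (d : ℝ) ≤ C * (1 + Real.log K) ∧ SymBody B ∧ (pts B).ncard ≤ A.card ∧
      ((T.card : ℝ) ≤ C * K ^ C) ∧ Covered B v T A

/-- `X`, a nonempty finite set of integer points of `ℝ ^ d`, has at most `K |X|` sums and is dense in
its convex hull: the hull has at most `K |X|` integer points. Moreover `|X| ≤ K |A|`, and at least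
`|A| / K` elements of `A` are in `g + φ(X)`, where `φ` is the linear form `v`. -/
structure Part (K : ℝ) (A : Finset ℤ) {d : ℕ} (X : Finset (Fin d → ℤ)) (v : Fin d → ℤ) (g : ℤ) :
    Prop where
  ne : X.Nonempty
  doubling : ((X + X).card : ℝ) ≤ K * X.card
  dense : ((pts (convexHull ℝ ((fun (x : Fin d → ℤ) (i : Fin d) => (x i : ℝ)) '' (X : Set (Fin d → ℤ))))).ncard : ℝ) ≤
    K * X.card
  size : (X.card : ℝ) ≤ K * A.card
  meet : (A.card : ℝ) ≤ K * ({a : ℤ | a ∈ A ∧ ∃ x ∈ X, a = g + lin v x}.ncard : ℝ)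

/-- The form without dimension, with arbitrary dense sets of integer points. -/
def FreeSet : Prop :=
  ∃ C : ℝ, ∀ (K : ℝ) (A : Finset ℤ), A.Nonempty → ((A + A).card : ℝ) ≤ K * A.card →
    ∃ (d : ℕ) (X : Finset (Fin d → ℤ)) (v : Fin d → ℤ) (g : ℤ), Part (C * K ^ C) A X v g

/-- `B` is a symmetric convex body in any dimension such that `2 B` has at most `K` times as many
integer points as `B` and `B` at most `K |A|`, and at least `|A| / K` elements of `A` are in a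
translate of the image of the integer points of `B` under the linear form `v`. -/
structure BodyPart (K : ℝ) (A : Finset ℤ) {d : ℕ} (B : Set (Fin d → ℝ)) (v : Fin d → ℤ) (g : ℤ) :
    Prop where
  body : SymBody B
  doubling : ((pts ((2 : ℝ) • B)).ncard : ℝ) ≤ K * (pts B).ncard
  size : ((pts B).ncard : ℝ) ≤ K * A.card
  meet : (A.card : ℝ) ≤ K * ({a : ℤ | a ∈ A ∧ ∃ x ∈ pts B, a = g + lin v x}.ncard : ℝ)

/-- The form without dimension, with symmetric convex bodies. -/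
def FreeBody : Prop :=
  ∃ C : ℝ, ∀ (K : ℝ) (A : Finset ℤ), A.Nonempty → ((A + A).card : ℝ) ≤ K * A.card →
    ∃ (d : ℕ) (B : Set (Fin d → ℝ)) (v : Fin d → ℤ) (g : ℤ), BodyPart (C * K ^ C) A B v g

/-! ### from groups to the integers -/

/-- the homomorphism of a linear form -/
def hom {d : ℕ} (v : Fin d → ℤ) : (Fin d → ℤ) →+ ℤ where
  toFun x := lin v x
  map_zero' := by simp [lin]
  map_add' x y := by
    unfold lin
    rw [← Finset.sum_add_distrib]
    exact Finset.sum_congr rfl fun i _ => by rw [Pi.add_apply]; ring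

theorem hom_eq {d : ℕ} (ψ : (Fin d → ℤ) →+ ℤ) (x : Fin d → ℤ) :
    ψ x = lin (fun i => ψ (Pi.single i 1)) x := by
  have h1 : x = ∑ i, x i • (Pi.single i 1 : Fin d → ℤ) := by
    funext j
    rw [Finset.sum_apply]
    simp [Pi.single_apply]
  conv_lhs => rw [h1]
  rw [map_sum]
  unfold lin
  apply Finset.sum_congr rfl
  intro i _
  rw [map_zsmul, smul_eq_mul, mul_comm]

theorem fin_sub {H : AddSubgroup ℤ} (hH : Finite H) : H = ⊥ := by
  rw [AddSubgroup.eq_bot_iff_forall]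
  intro h hh
  have h1 : Nat.card H • (⟨h, hh⟩ : H) = 0 := card_nsmul_eq_zero'
  have h2 : Nat.card H • h = 0 := by
    have h3 := congrArg H.subtype h1
    rw [map_nsmul, map_zero] at h3
    exact h3
  have h4 : Nat.card H ≠ 0 := Nat.card_pos.ne'
  rw [nsmul_eq_mul] at h2
  rcases mul_eq_zero.1 h2 with h5 | h5
  · exact absurd (by exact_mod_cast h5) h4
  · exact h5

theorem card_bot' : Nat.card (⊥ : AddSubgroup ℤ) = 1 := by simp

theorem part_data {K : ℝ} {A : Finset ℤ} {d : ℕ} {X : Finset (Fin d → ℤ)} {v : Fin d → ℤ} {g : ℤ}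
    (h : Part K A X v g) : Data K A X (hom v) ⊥ g where
  ne := h.ne
  fin := inferInstance
  doubling := h.doubling
  dense := h.dense
  size := by
    rw [card_bot', Nat.cast_one, mul_one]
    exact h.size
  meet := by
    have h1 : {a : ℤ | a ∈ A ∧ ∃ x ∈ X, ∃ y ∈ (⊥ : AddSubgroup ℤ), a = g + hom v x + y} =
        {a : ℤ | a ∈ A ∧ ∃ x ∈ X, a = g + lin v x} := by
      ext a
      constructor
      · rintro ⟨ha, x, hx, y, hy, e⟩
        rw [AddSubgroup.mem_bot] at hy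
        subst hy
        exact ⟨ha, x, hx, by rw [e, add_zero]; rfl⟩
      · rintro ⟨ha, x, hx, e⟩
        exact ⟨ha, x, hx, 0, AddSubgroup.zero_mem _, by rw [e, add_zero]; rfl⟩
    rw [h1]
    exact h.meet

/-- **The bound for the dimension comes for free**, one set. -/
theorem one_set {K : ℝ} {A : Finset ℤ} (hA : A.Nonempty)
    (hK : ((A + A).card : ℝ) ≤ K * A.card) {d : ℕ} {X : Finset (Fin d → ℤ)} {v : Fin d → ℤ} {g : ℤ}
    (h : Part K A X v g) :
    ∃ (r : ℕ) (B : Set (Fin r → ℝ)) (u : Fin r → ℤ) (T : Finset ℤ),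
      (r : ℝ) ≤ 500 * Real.log (2 * K) ∧ SymBody B ∧ (pts B).ncard ≤ A.card ∧
      (T.card : ℝ) ≤ 5000 * K ^ 5000 ∧ Covered B u T A := by
  obtain ⟨r, B, θ, H', T, h1, h2, h3, h4, h5, h6⟩ := main hA hK (part_data h)
  have hbot := fin_sub h3
  subst hbot
  rw [card_bot', mul_one] at h4
  refine ⟨r, B, fun i => θ (Pi.single i 1), T, h1, ⟨h2.1, h2.2.1, h2.2.2.1, h2.2.2.2⟩, h4, h5, ?_⟩
  intro a ha
  obtain ⟨t, ht, x, hx, y, hy, e⟩ := h6 a ha
  rw [AddSubgroup.mem_bot] at hy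
  subst hy
  refine ⟨t, ht, x, hx, ?_⟩
  rw [e, add_zero, hom_eq θ x]

theorem Part.mono {K K' : ℝ} {A : Finset ℤ} {d : ℕ} {X : Finset (Fin d → ℤ)} {v : Fin d → ℤ}
    {g : ℤ} (h : Part K A X v g) (hK : K ≤ K') : Part K' A X v g where
  ne := h.ne
  doubling := h.doubling.trans (mul_le_mul_of_nonneg_right hK (Nat.cast_nonneg _))
  dense := h.dense.trans (mul_le_mul_of_nonneg_right hK (Nat.cast_nonneg _))
  size := h.size.trans (mul_le_mul_of_nonneg_right hK (Nat.cast_nonneg _))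
  meet := h.meet.trans (mul_le_mul_of_nonneg_right hK (Nat.cast_nonneg _))

theorem log_two_le {K : ℝ} (hK : 1 ≤ K) : Real.log (2 * K) ≤ 1 + Real.log K := by
  rw [Real.log_mul (by norm_num) (by linarith)]
  have := Real.log_two_lt_d9
  linarith

/-- from the form without dimension to Q1 -/
theorem free_pfr : FreeSet → PFRInt := by
  rintro ⟨C, h⟩
  obtain ⟨n, hn1, hn, hCK⟩ := nat_const C
  have hn1r : (1 : ℝ) ≤ n := by exact_mod_cast hn1
  refine ⟨((5000 * n ^ 5000 : ℕ) : ℝ), by exact_mod_cast Nat.mul_pos (by norm_num) (pow_pos hn1 5000),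
    ?_⟩
  intro K A hA hK
  have hK1 := one_le_K hA hK
  have hK0 : 0 < K := by linarith
  obtain ⟨d, X, v, g, hD⟩ := h K A hA hK
  have hD' := hD.mono (hCK K hK1)
  have hKK : K ≤ (n : ℝ) * K ^ n := by
    calc K = 1 * K ^ 1 := by rw [pow_one, one_mul]
      _ ≤ n * K ^ n := mul_le_mul hn1r (pow_le_pow_right₀ hK1 hn1) (by positivity) (by positivity)
  obtain ⟨r, B, u, T, h1, h2, h4, h5, h6⟩ := one_set hA
    (hK.trans (mul_le_mul_of_nonneg_right hKK (Nat.cast_nonneg _))) hD'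
  have hn5000 : n ≤ n ^ 5000 := by
    calc n = n ^ 1 := (pow_one n).symm
      _ ≤ n ^ 5000 := Nat.pow_le_pow_right hn1 (by norm_num)
  have hn5000r : (n : ℝ) ≤ ((n ^ 5000 : ℕ) : ℝ) := by exact_mod_cast hn5000
  have hlog0 : 0 ≤ Real.log (2 * K) := Real.log_nonneg (by linarith)
  refine ⟨r, B, u, T, ?_, h2, h4, ?_, h6⟩
  · have h7 : 2 * ((n : ℝ) * K ^ n) ≤ (2 * K) ^ (2 * n) := by
      have e1 : 2 * (n : ℝ) ≤ 2 ^ (2 * n) := by
        have : 2 * n < 2 ^ (2 * n) := Nat.lt_two_pow_self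
        exact_mod_cast this.le
      have e2 : K ^ n ≤ K ^ (2 * n) := pow_le_pow_right₀ hK1 (by omega)
      calc 2 * ((n : ℝ) * K ^ n) = (2 * (n : ℝ)) * K ^ n := by ring
        _ ≤ 2 ^ (2 * n) * K ^ (2 * n) := mul_le_mul e1 e2 (by positivity) (by positivity)
        _ = (2 * K) ^ (2 * n) := (mul_pow _ _ _).symm
    have h8 : Real.log (2 * ((n : ℝ) * K ^ n)) ≤ (2 * n : ℕ) * Real.log (2 * K) := by
      rw [← Real.log_pow]
      exact Real.log_le_log (by positivity) h7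
    push_cast at h8
    calc (r : ℝ) ≤ 500 * Real.log (2 * ((n : ℝ) * K ^ n)) := h1
      _ ≤ 500 * (2 * n * Real.log (2 * K)) := mul_le_mul_of_nonneg_left h8 (by norm_num)
      _ = (1000 * n) * Real.log (2 * K) := by ring
      _ ≤ ((5000 * n ^ 5000 : ℕ) : ℝ) * Real.log (2 * K) := by
        refine mul_le_mul_of_nonneg_right ?_ hlog0
        rw [Nat.cast_mul]
        have : ((5000 : ℕ) : ℝ) = 5000 := by norm_num
        rw [this]
        linarith
      _ ≤ ((5000 * n ^ 5000 : ℕ) : ℝ) * (1 + Real.log K) :=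
        mul_le_mul_of_nonneg_left (log_two_le hK1) (Nat.cast_nonneg _)
  · have h7 : ((n : ℝ) * K ^ n) ^ 5000 = (n : ℝ) ^ 5000 * K ^ (n * 5000) := by
      rw [mul_pow, ← pow_mul]
    have h8 : ((n * 5000 : ℕ) : ℝ) ≤ ((5000 * n ^ 5000 : ℕ) : ℝ) := by
      exact_mod_cast (by rw [mul_comm]; exact Nat.mul_le_mul_left _ hn5000 :
        n * 5000 ≤ 5000 * n ^ 5000)
    calc (T.card : ℝ) ≤ 5000 * ((n : ℝ) * K ^ n) ^ 5000 := h5
      _ = (5000 * (n : ℝ) ^ 5000) * K ^ (n * 5000) := by rw [h7, mul_assoc]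
      _ ≤ (5000 * (n : ℝ) ^ 5000) * K ^ ((5000 * n ^ 5000 : ℕ) : ℝ) :=
        mul_le_mul_of_nonneg_left (pow_le_rpow hK1 h8) (by positivity)
      _ = ((5000 * n ^ 5000 : ℕ) : ℝ) * K ^ ((5000 * n ^ 5000 : ℕ) : ℝ) := by
        congr 1
        rw [Nat.cast_mul, Nat.cast_pow]
        norm_num

/-- a symmetric convex body gives a dense set of integer points -/
theorem body_part {K : ℝ} (hK : 1 ≤ K) {A : Finset ℤ} {d : ℕ} {B : Set (Fin d → ℝ)}
    {v : Fin d → ℤ} {g : ℤ} (h : BodyPart K A B v g) :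
    ∃ X : Finset (Fin d → ℤ), Part K A X v g := by
  have hB := h.body
  have hsym : Sym B := ⟨hB.1, hB.2.1, hB.2.2.2, hB.2.2.1.mono interior_subset⟩
  have hfin : (lat B).Finite := lat_finite hB.2.1.isBounded
  have hpl : pts B = lat B := rfl
  have hcard : (pts B).ncard = hfin.toFinset.card := Set.ncard_eq_toFinset_card _ hfin
  refine ⟨hfin.toFinset, ⟨⟨0, ?_⟩, ?_, ?_, ?_, ?_⟩⟩
  · rw [Set.Finite.mem_toFinset]
    show re 0 ∈ B
    have : re (0 : Fin d → ℤ) = 0 := by funext i; simp [re]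
    rw [this]
    exact hsym.zero
  · have h1 : (hfin.toFinset + hfin.toFinset).card ≤ (pts ((2 : ℝ) • B)).ncard := by
      have e : (pts ((2 : ℝ) • B)).ncard = (hsym.finite 2).toFinset.card :=
        Set.ncard_eq_toFinset_card _ (hsym.finite 2)
      rw [e]
      refine Finset.card_le_card ?_
      intro x hx
      obtain ⟨a, ha, b, hb, rfl⟩ := Finset.mem_add.1 hx
      rw [Set.Finite.mem_toFinset] at ha hb ⊢
      have ha' : a ∈ lat ((1 : ℝ) • B) := by rw [one_smul]; exact ha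
      have hb' : b ∈ lat ((1 : ℝ) • B) := by rw [one_smul]; exact hb
      have h2 := hsym.add (by norm_num) (by norm_num) ha' hb'
      norm_num at h2
      exact h2
    have h2 := h.doubling
    rw [hcard] at h2
    exact le_trans (by exact_mod_cast h1) h2
  · have h1 : hull hfin.toFinset ⊆ (hfin.toFinset : Set (Fin d → ℤ)) := by
      intro w hw
      rw [Finset.mem_coe, Set.Finite.mem_toFinset]
      refine convexHull_min ?_ hsym.conv hw
      rintro _ ⟨x, hx, rfl⟩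
      rw [Finset.mem_coe, Set.Finite.mem_toFinset] at hx
      exact hx
    have h2 := Set.ncard_le_ncard h1 (Finset.finite_toSet _)
    rw [Set.ncard_coe_finset] at h2
    calc ((hull hfin.toFinset).ncard : ℝ) ≤ 1 * hfin.toFinset.card := by
          rw [one_mul]; exact_mod_cast h2
      _ ≤ _ := mul_le_mul_of_nonneg_right hK (Nat.cast_nonneg _)
  · have h1 := h.size
    rw [hcard] at h1
    exact h1
  · have h1 : {a : ℤ | a ∈ A ∧ ∃ x ∈ hfin.toFinset, a = g + lin v x} =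
        {a : ℤ | a ∈ A ∧ ∃ x ∈ pts B, a = g + lin v x} := by
      ext a
      simp only [Set.mem_setOf_eq, Set.Finite.mem_toFinset]
      rfl
    rw [h1]
    exact h.meet

theorem BodyPart.mono {K K' : ℝ} {A : Finset ℤ} {d : ℕ} {B : Set (Fin d → ℝ)} {v : Fin d → ℤ}
    {g : ℤ} (h : BodyPart K A B v g) (hK : K ≤ K') : BodyPart K' A B v g where
  body := h.body
  doubling := h.doubling.trans (mul_le_mul_of_nonneg_right hK (Nat.cast_nonneg _))
  size := h.size.trans (mul_le_mul_of_nonneg_right hK (Nat.cast_nonneg _))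
  meet := h.meet.trans (mul_le_mul_of_nonneg_right hK (Nat.cast_nonneg _))

theorem body_set : FreeBody → FreeSet := by
  rintro ⟨C, h⟩
  obtain ⟨n, hn1, hn, hCK⟩ := nat_const C
  have hn1r : (1 : ℝ) ≤ n := by exact_mod_cast hn1
  refine ⟨(n : ℝ), fun K A hA hK => ?_⟩
  have hK1 := one_le_K hA hK
  obtain ⟨d, B, v, g, hB⟩ := h K A hA hK
  have hone : (1 : ℝ) ≤ n * K ^ n := by
    have : (1 : ℝ) ≤ K ^ n := one_le_pow₀ hK1
    nlinarith
  obtain ⟨X, hX⟩ := body_part hone (hB.mono (hCK K hK1))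
  refine ⟨d, X, v, g, ?_⟩
  rw [Real.rpow_natCast]
  exact hX

/-- from Q1 to the form without dimension -/
theorem pfr_body : PFRInt → FreeBody := by
  classical
  rintro ⟨C, -, h⟩
  obtain ⟨n, hn1, hn, hCK⟩ := nat_const C
  have hn1r : (1 : ℝ) ≤ n := by exact_mod_cast hn1
  -- the constant
  refine ⟨((16 ^ n : ℕ) : ℝ), ?_⟩
  intro K A hA hK
  have hK1 := one_le_K hA hK
  have hK0 : 0 < K := by linarith
  have hlog0 : 0 ≤ Real.log K := Real.log_nonneg hK1
  obtain ⟨d, B, v, T, hd, hB, hvol, hT, hcov⟩ := h K A hA hK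
  have hsym : Sym B := ⟨hB.1, hB.2.1, hB.2.2.2, hB.2.2.1.mono interior_subset⟩
  have hfin : (lat B).Finite := lat_finite hB.2.1.isBounded
  have h2n : 2 * n ≤ 16 ^ n := by
    calc 2 * n ≤ 2 ^ (2 * n) := Nat.lt_two_pow_self.le
      _ ≤ 2 ^ (4 * n) := Nat.pow_le_pow_right (by norm_num) (by omega)
      _ = 16 ^ n := by rw [pow_mul]; norm_num
  have h2nr : ((2 * n : ℕ) : ℝ) ≤ ((16 ^ n : ℕ) : ℝ) := by exact_mod_cast h2n
  have hbig : ((n : ℕ) : ℝ) * K ^ n ≤ ((16 ^ n : ℕ) : ℝ) * K ^ ((16 ^ n : ℕ) : ℝ) := by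
    have e1 : ((n : ℕ) : ℝ) ≤ ((16 ^ n : ℕ) : ℝ) := by exact_mod_cast (by omega : n ≤ 16 ^ n)
    exact mul_le_mul e1 (pow_le_rpow hK1 e1) (by positivity) (Nat.cast_nonneg _)
  have hone : (1 : ℝ) ≤ ((16 ^ n : ℕ) : ℝ) * K ^ ((16 ^ n : ℕ) : ℝ) := by
    have e1 : (1 : ℝ) ≤ ((16 ^ n : ℕ) : ℝ) := by exact_mod_cast (by omega : 1 ≤ 16 ^ n)
    have e2 : (1 : ℝ) ≤ K ^ ((16 ^ n : ℕ) : ℝ) := Real.one_le_rpow hK1 (Nat.cast_nonneg _)
    nlinarith
  have hdd : (4 : ℝ) ^ d ≤ ((16 ^ n : ℕ) : ℝ) * K ^ ((16 ^ n : ℕ) : ℝ) := by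
    have e1 : (d : ℝ) ≤ n * (1 + Real.log K) :=
      hd.trans (mul_le_mul_of_nonneg_right hn (by linarith))
    have e2 : Real.log 4 ≤ 2 := by
      rw [show (4 : ℝ) = 2 ^ 2 by norm_num, Real.log_pow]
      have := Real.log_two_lt_d9
      push_cast
      linarith
    have e16 : (2 : ℝ) ≤ Real.log 16 := by
      rw [show (16 : ℝ) = 2 ^ 4 by norm_num, Real.log_pow]
      have := Real.log_two_gt_d9
      push_cast
      linarith
    have e3 : Real.log ((4 : ℝ) ^ d) ≤ Real.log ((16 : ℝ) ^ n * K ^ (2 * n)) := by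
      rw [Real.log_mul (by positivity) (by positivity), Real.log_pow, Real.log_pow, Real.log_pow]
      have e5 : (d : ℝ) * Real.log 4 ≤ (n * (1 + Real.log K)) * 2 :=
        mul_le_mul e1 e2 (Real.log_nonneg (by norm_num)) (by positivity)
      have e6 : (n : ℝ) * 2 ≤ n * Real.log 16 := mul_le_mul_of_nonneg_left e16 (Nat.cast_nonneg _)
      push_cast
      linarith
    have e4 : (4 : ℝ) ^ d ≤ (16 : ℝ) ^ n * K ^ (2 * n) :=
      (Real.log_le_log_iff (by positivity) (by positivity)).1 e3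
    calc (4 : ℝ) ^ d ≤ (16 : ℝ) ^ n * K ^ (2 * n) := e4
      _ = ((16 ^ n : ℕ) : ℝ) * K ^ (2 * n) := by push_cast; norm_num
      _ ≤ ((16 ^ n : ℕ) : ℝ) * K ^ ((16 ^ n : ℕ) : ℝ) :=
        mul_le_mul_of_nonneg_left (pow_le_rpow hK1 h2nr) (Nat.cast_nonneg _)
  obtain ⟨t, ht, ht2⟩ := pigeon T A A hA (fun t a => ∃ x ∈ pts B, a = t + lin v x)
    subset_rfl (by
      intro a ha
      obtain ⟨t, ht, x, hx, e⟩ := hcov a ha
      exact ⟨t, ht, x, hx, e⟩)
  refine ⟨d, B, v, t, ⟨hB, ?_, ?_, ?_⟩⟩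
  · have h3 := num_double hsym (t := 1) (by norm_num)
    rw [mul_one] at h3
    have e1 : num B 1 = (pts B).ncard := by
      rw [num, one_smul]; rfl
    have e2 : num B 2 = (pts ((2 : ℝ) • B)).ncard := rfl
    rw [e1, e2] at h3
    calc ((pts ((2 : ℝ) • B)).ncard : ℝ) ≤ ((4 ^ d * (pts B).ncard : ℕ) : ℝ) := by exact_mod_cast h3
      _ = (4 : ℝ) ^ d * (pts B).ncard := by push_cast; rfl
      _ ≤ _ := mul_le_mul_of_nonneg_right hdd (Nat.cast_nonneg _)
  · have h1 : ((pts B).ncard : ℝ) ≤ 1 * A.card := by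
      rw [one_mul]
      exact_mod_cast hvol
    exact h1.trans (mul_le_mul_of_nonneg_right hone (Nat.cast_nonneg _))
  · have h1 : {a : ℤ | a ∈ A ∧ ∃ x ∈ pts B, a = t + lin v x} =
        ((A.filter (fun a => ∃ x ∈ pts B, a = t + lin v x) : Finset ℤ) : Set ℤ) := by
      rw [Finset.coe_filter]
    rw [h1, Set.ncard_coe_finset]
    have hT' : (T.card : ℝ) ≤ ((16 ^ n : ℕ) : ℝ) * K ^ ((16 ^ n : ℕ) : ℝ) :=
      (hT.trans (hCK K hK1)).trans hbig
    calc (A.card : ℝ) ≤ T.card * (A.filter (fun a => ∃ x ∈ pts B, a = t + lin v x)).card := by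
          exact_mod_cast ht2
      _ ≤ _ := mul_le_mul_of_nonneg_right hT' (Nat.cast_nonneg _)

end Pool.Agent.Q288.FR
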